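import Pool.Agent.Run7.h532.KS.Base
import Pool.Agent.TH997.J115
import Pool.Agent.H816_Nef.J5

/-!
# Piece NOT (MP_4ff127_gt): there is no semipositive representative
-/

set_option autoImplicit false

open scoped Manifold ContDiff Topology ComplexConjugate MatrixGroups UpperHalfPlane
open Set Filter Metric MeasureTheory

namespace Pool.Agent.Run7.h524.KS

open Pool.Agent.Run7.h532.KS (E UU FF PP QQ levF S_NOT)
open Pool.Agent.PNB (laplaceAtZero)
open Pool.Agent.W711.KC (jj nn CG jj_ne im_mob CG_far)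
open Pool.Agent.TH598.KG (Cutoff d1)
open Pool.Agent.TH997.KG (mob hasDerivAt_mob mob_mem isOpen_VV exists_cutoff base_stokes)
open Pool.Agent.H816_Nef (levi J5_sym J5_diff laplacian_comp_hol laplaceAtZero_eq)

theorem two_le_inf : (2 : WithTop ℕ∞) ≤ ∞ := by
  have h : ((2 : ℕ∞) : WithTop ℕ∞) ≤ ((⊤ : ℕ∞) : WithTop ℕ∞) := WithTop.coe_le_coe.2 le_top
  exact h

/-- the upper half plane -/
abbrev HH : Set ℂ := {z : ℂ | 0 < z.im}

theorem isOpen_HH : IsOpen HH := isOpen_lt continuous_const Complex.continuous_im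

theorem isOpen_UU' : IsOpen UU := isOpen_lt continuous_const (Complex.continuous_im.comp continuous_fst)

theorem exists_pos' {φ : ℂ → ℝ} (hφ : Cutoff CG φ) : ∃ z : ℂ, 0 < z.im ∧ 0 < φ z := by
  by_contra hcon
  push Not at hcon
  have h1 := hφ.sum UpperHalfPlane.I
  have h2 : ∀ g : CG, φ (((g : SL(2, ℝ)) • UpperHalfPlane.I : ℍ) : ℂ) = 0 := fun g =>
    le_antisymm (hcon _ (UpperHalfPlane.im_pos _)) (hφ.nonneg _)
  simp [h2] at h1

/-! ### integration by parts -/

theorem fderiv_cs1 {f : ℂ → ℂ} (hf : ContDiff ℝ 1 f) (hc : HasCompactSupport f) (v : ℂ) :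
    Continuous (fun x => fderiv ℝ f x v) ∧ HasCompactSupport (fun x => fderiv ℝ f x v) ∧
      ∫ x, fderiv ℝ f x v = 0 := by
  have hcont : Continuous fun x => fderiv ℝ f x v :=
    (hf.continuous_fderiv (by simp)).clm_apply continuous_const
  have hcs : HasCompactSupport fun x => fderiv ℝ f x v := by
    refine (hc.fderiv (𝕜 := ℝ)).mono' ?_
    intro x hx
    apply subset_closure
    simp only [Function.mem_support, ne_eq] at hx ⊢
    intro h0
    apply hx
    simp [h0]
  refine ⟨hcont, hcs, ?_⟩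
  have := integral_mul_fderiv_eq_neg_fderiv_mul_of_integrable (μ := (volume : Measure ℂ))
    (f := fun _ => (1 : ℂ)) (g := f) (v := v) (by simp)
    (by simpa using hcont.integrable_of_hasCompactSupport hcs)
    (by simpa using hf.continuous.integrable_of_hasCompactSupport hc)
    (by intro x _; exact differentiableAt_const _)
    (by intro x _; exact (hf.differentiable (by simp)).differentiableAt)
  simpa using this

theorem d1_cs {f : ℂ → ℂ} (hf : ContDiff ℝ 1 f) (hc : HasCompactSupport f) :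
    Continuous (d1 f) ∧ HasCompactSupport (d1 f) ∧ ∫ x, d1 f x = 0 := by
  obtain ⟨h1, h2, h3⟩ := fderiv_cs1 hf hc 1
  obtain ⟨g1, g2, g3⟩ := fderiv_cs1 hf hc Complex.I
  have i1 := h1.integrable_of_hasCompactSupport (μ := volume) h2
  have i2 := g1.integrable_of_hasCompactSupport (μ := volume) g2
  refine ⟨?_, ?_, ?_⟩
  · unfold d1
    exact continuous_const.mul (h1.sub (continuous_const.mul g1))
  · unfold d1
    exact (h2.sub (g2.mul_left)).mul_left
  · unfold d1
    rw [integral_const_mul, integral_sub i1 (i2.const_mul _), integral_const_mul, h3, g3]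
    simp

/-- Stokes and integration by parts: `∫ φ ∂β = 0` -/
theorem int_zero {φ : ℂ → ℝ} (hφ : Cutoff CG φ) {β : ℂ → ℂ} (hβ : ContDiffOn ℝ 1 β HH)
    (heq : ∀ g ∈ CG, ∀ z : ℂ, 0 < z.im → β (nn g z / jj g z) = conj (jj g z) ^ 2 * β z) :
    ∫ z in HH, (φ z : ℂ) * d1 β z = 0 := by
  have := CG_far.properlyDiscontinuous one_pos
  have : Countable CG := CG_far.countable one_pos
  have hst := base_stokes hφ hβ.continuousOn heq
  set f : ℂ → ℂ := fun z => (φ z : ℂ) * β z with hf
  have hφc : ContDiff ℝ 1 (fun z => (φ z : ℂ)) :=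
    Complex.ofRealCLM.contDiff.comp (hφ.smooth.of_le (by exact_mod_cast le_top))
  have hoff : ∀ z, z ∉ tsupport φ → (fun z => (φ z : ℂ)) =ᶠ[𝓝 z] fun _ => 0 := by
    intro z hz
    filter_upwards [notMem_tsupport_iff_eventuallyEq.1 hz] with w hw
    simp [hw]
  have hfc : ContDiff ℝ 1 f := by
    rw [contDiff_iff_contDiffAt]
    intro z
    by_cases hz : z ∈ tsupport φ
    · exact hφc.contDiffAt.mul (hβ.contDiffAt (isOpen_HH.mem_nhds (hφ.supp hz)))
    · refine contDiffAt_const (c := (0 : ℂ)) |>.congr_of_eventuallyEq ?_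
      filter_upwards [hoff z hz] with w hw
      simp only [hf]
      rw [hw, zero_mul]
  have hfs : HasCompactSupport f := by
    have h1 : HasCompactSupport (fun z => (φ z : ℂ)) :=
      hφ.compact.comp_left (g := fun x : ℝ => (x : ℂ)) (by simp)
    exact h1.mul_right
  obtain ⟨-, -, h3⟩ := d1_cs hfc hfs
  -- the product rule
  have hprod : ∀ z ∈ HH, d1 f z = β z * d1 (fun w => (φ w : ℂ)) z + (φ z : ℂ) * d1 β z := by
    intro z hz
    have hβd : DifferentiableAt ℝ β z :=
      (hβ.contDiffAt (isOpen_HH.mem_nhds hz)).differentiableAt (by norm_num)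
    have hφd : DifferentiableAt ℝ (fun w => (φ w : ℂ)) z := (hφc.differentiable (by simp)) z
    have h4 : fderiv ℝ f z = (φ z : ℂ) • fderiv ℝ β z + β z • fderiv ℝ (fun w => (φ w : ℂ)) z :=
      fderiv_fun_mul hφd hβd
    unfold d1
    rw [h4]
    simp only [_root_.add_apply, _root_.smul_apply, smul_eq_mul]
    ring
  have hzero : ∀ z, z ∉ HH → d1 f z = 0 := by
    intro z hz
    have hz' : z ∉ tsupport φ := fun h => hz (hφ.supp h)
    have h5 : f =ᶠ[𝓝 z] fun _ => 0 := by
      filter_upwards [hoff z hz'] with w hw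
      simp only [hf]
      rw [hw, zero_mul]
    unfold d1
    rw [h5.fderiv_eq]
    simp
  have h6 : ∫ z in HH, d1 f z = 0 := by
    rw [setIntegral_eq_integral_of_forall_compl_eq_zero hzero]
    exact h3
  have hφd1 : Continuous (d1 fun w => (φ w : ℂ)) ∧ HasCompactSupport (d1 fun w => (φ w : ℂ)) := by
    have h1 : HasCompactSupport (fun z => (φ z : ℂ)) :=
      hφ.compact.comp_left (g := fun x : ℝ => (x : ℂ)) (by simp)
    obtain ⟨a, b, -⟩ := d1_cs hφc h1
    exact ⟨a, b⟩
  have hi1 : IntegrableOn (fun z => β z * d1 (fun w => (φ w : ℂ)) z) HH := by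
    have hsub : tsupport φ ⊆ HH := hφ.supp
    have hK : IsCompact (tsupport φ) := hφ.compact.isCompact
    have h7 : IntegrableOn (fun z => β z * d1 (fun w => (φ w : ℂ)) z) (tsupport φ) :=
      ((hβ.continuousOn.mono hsub).mul hφd1.1.continuousOn).integrableOn_compact hK
    rw [integrableOn_iff_integrable_of_support_subset (s := HH)]
    · rw [← integrableOn_iff_integrable_of_support_subset (s := tsupport φ)]
      · exact h7
      · intro z hz
        by_contra hcon
        apply hz
        have : d1 (fun w => (φ w : ℂ)) z = 0 := by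
          unfold d1
          rw [(hoff z hcon).fderiv_eq]
          simp
        show β z * d1 (fun w => (φ w : ℂ)) z = 0
        rw [this, mul_zero]
    · intro z hz
      apply hsub
      by_contra hcon
      apply hz
      have : d1 (fun w => (φ w : ℂ)) z = 0 := by
        unfold d1
        rw [(hoff z hcon).fderiv_eq]
        simp
      show β z * d1 (fun w => (φ w : ℂ)) z = 0
      rw [this, mul_zero]
  have hi2 : IntegrableOn (d1 f) HH := by
    obtain ⟨a, b, -⟩ := d1_cs hfc hfs
    exact (a.integrable_of_hasCompactSupport b).integrableOn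
  have h8 : ∫ z in HH, (φ z : ℂ) * d1 β z =
      ∫ z in HH, (d1 f z - β z * d1 (fun w => (φ w : ℂ)) z) := by
    refine setIntegral_congr_fun isOpen_HH.measurableSet fun z hz => ?_
    show (φ z : ℂ) * d1 β z = d1 f z - β z * d1 (fun w => (φ w : ℂ)) z
    rw [hprod z hz]
    ring
  rw [h8, integral_sub hi2 hi1, h6, hst, sub_zero]

/-- positivity of integrals -/
theorem int_pos {φ : ℂ → ℝ} (hφ : Cutoff CG φ) {h : ℂ → ℝ} (hc : ContinuousOn h HH)
    (h0 : ∀ z ∈ HH, 0 ≤ h z) (hint : ∫ z in HH, φ z * h z = 0) (z : ℂ) (hz : z ∈ HH) :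
    φ z * h z = 0 := by
  by_contra hne
  have hoff : ∀ z, z ∉ tsupport φ → φ =ᶠ[𝓝 z] fun _ => 0 := fun z hz =>
    notMem_tsupport_iff_eventuallyEq.1 hz
  have hcont : Continuous fun z => φ z * h z := by
    rw [continuous_iff_continuousAt]
    intro z
    by_cases hz : z ∈ tsupport φ
    · exact hφ.smooth.continuous.continuousAt.mul (hc.continuousAt (isOpen_HH.mem_nhds (hφ.supp hz)))
    · refine (continuousAt_const (y := (0 : ℝ))).congr ?_
      filter_upwards [hoff z hz] with w hw
      rw [hw, zero_mul]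
  have hcs : HasCompactSupport fun z => φ z * h z := hφ.compact.mul_right
  have hz0 : ∀ z, z ∉ HH → φ z * h z = 0 := by
    intro z hz
    have : φ z = 0 := image_eq_zero_of_notMem_tsupport fun h => hz (hφ.supp h)
    rw [this, zero_mul]
  have hnn : ∀ z, 0 ≤ φ z * h z := by
    intro z
    by_cases hz : z ∈ HH
    · exact mul_nonneg (hφ.nonneg z) (h0 z hz)
    · rw [hz0 z hz]
  have hpos := hcont.integral_pos_of_hasCompactSupport_nonneg_nonzero (μ := volume) hcs hnn hne
  rw [setIntegral_eq_integral_of_forall_compl_eq_zero hz0] at hint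
  linarith

/-! ### the second derivatives on the diagonal -/

section diag

variable {u : E → ℝ}

/-- the function `β_s` -/
noncomputable def be (u : E → ℝ) (s : ℂ) (z : ℂ) : ℂ :=
  (fderiv ℝ u (z, z) (s, 1) : ℂ) + (fderiv ℝ u (z, z) (s * Complex.I, Complex.I) : ℂ) * Complex.I

/-- the second derivative -/
noncomputable def BB (u : E → ℝ) (z : ℂ) (v w : E) : ℝ := fderiv ℝ (fderiv ℝ u) (z, z) v w

theorem be_hasFDerivAt (hu : ContDiffOn ℝ ∞ u UU) {z : ℂ} (hz : z ∈ HH) (s v : ℂ) :
    ContDiffAt ℝ 1 (be u s) z ∧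
    fderiv ℝ (be u s) z v = (BB u z (v, v) (s, 1) : ℂ) +
      (BB u z (v, v) (s * Complex.I, Complex.I) : ℂ) * Complex.I := by
  have hmem : ((z, z) : E) ∈ UU := hz
  have huat : ContDiffAt ℝ 2 u (z, z) :=
    (hu.contDiffAt (isOpen_UU'.mem_nhds hmem)).of_le two_le_inf
  have hD : ContDiffAt ℝ 1 (fderiv ℝ u) (z, z) := huat.fderiv_right (m := 1) (by norm_num)
  have hdiag : HasFDerivAt (fun t : ℂ => ((t, t) : E))
      ((ContinuousLinearMap.id ℝ ℂ).prod (ContinuousLinearMap.id ℝ ℂ)) z :=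
    (hasFDerivAt_id z).prodMk (hasFDerivAt_id z)
  have hdc : ContDiffAt ℝ 1 (fun t : ℂ => ((t, t) : E)) z := contDiffAt_id.prodMk contDiffAt_id
  have hDc : ContDiffAt ℝ 1 (fun t : ℂ => fderiv ℝ u (t, t)) z :=
    ContDiffAt.comp z (f := fun t : ℂ => ((t, t) : E)) hD hdc
  have hDf : HasFDerivAt (fun t : ℂ => fderiv ℝ u (t, t))
      ((fderiv ℝ (fderiv ℝ u) (z, z)).comp
        ((ContinuousLinearMap.id ℝ ℂ).prod (ContinuousLinearMap.id ℝ ℂ))) z :=
    HasFDerivAt.comp z (f := fun t : ℂ => ((t, t) : E))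
      (hD.differentiableAt (by norm_num)).hasFDerivAt hdiag
  have h1 : ∀ w : E, ContDiffAt ℝ 1 (fun t : ℂ => ((fderiv ℝ u (t, t) w : ℝ) : ℂ)) z ∧
      HasFDerivAt (fun t : ℂ => ((fderiv ℝ u (t, t) w : ℝ) : ℂ))
        (Complex.ofRealCLM.comp (((fderiv ℝ (fderiv ℝ u) (z, z)).comp
        ((ContinuousLinearMap.id ℝ ℂ).prod (ContinuousLinearMap.id ℝ ℂ))).flip w)) z := by
    intro w
    constructor
    · exact Complex.ofRealCLM.contDiff.contDiffAt.comp z (hDc.clm_apply contDiffAt_const)
    · have h2 := hDf.clm_apply (hasFDerivAt_const w z)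
      have h3 := HasFDerivAt.comp z (g := fun t : ℝ => (t : ℂ)) Complex.ofRealCLM.hasFDerivAt h2
      have e : (Complex.ofRealCLM.comp (((fderiv ℝ (fderiv ℝ u) (z, z)).comp
        ((ContinuousLinearMap.id ℝ ℂ).prod (ContinuousLinearMap.id ℝ ℂ))).flip w)) =
        Complex.ofRealCLM.comp ((fderiv ℝ u (z, z)).comp (0 : ℂ →L[ℝ] E) +
        ((fderiv ℝ (fderiv ℝ u) (z, z)).comp
        ((ContinuousLinearMap.id ℝ ℂ).prod (ContinuousLinearMap.id ℝ ℂ))).flip w) := by
        rw [ContinuousLinearMap.comp_zero, zero_add]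
      rw [e]
      exact h3
  obtain ⟨a1, a2⟩ := h1 (s, 1)
  obtain ⟨b1, b2⟩ := h1 (s * Complex.I, Complex.I)
  refine ⟨a1.add (b1.mul contDiffAt_const), ?_⟩
  have h4 := a2.add (b2.mul_const Complex.I)
  have h5 : fderiv ℝ (be u s) z = _ := h4.fderiv
  rw [h5]
  simp [BB]
  ring

theorem be_d1 (hu : ContDiffOn ℝ ∞ u UU) {z : ℂ} (hz : z ∈ HH) (s : ℂ) :
    d1 (be u s) z = ((1 / 2 * (BB u z (1, 1) (s, 1) +
      BB u z (Complex.I, Complex.I) (s * Complex.I, Complex.I)) : ℝ) : ℂ) +
      ((1 / 2 * (BB u z (1, 1) (s * Complex.I, Complex.I) -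
      BB u z (Complex.I, Complex.I) (s, 1)) : ℝ) : ℂ) * Complex.I := by
  unfold d1
  rw [(be_hasFDerivAt hu hz s 1).2, (be_hasFDerivAt hu hz s Complex.I).2]
  push_cast
  linear_combination (-(1 / 2) * (BB u z (Complex.I, Complex.I) (s * Complex.I, Complex.I) : ℂ)) *
    Complex.I_sq

theorem be_contDiffOn (hu : ContDiffOn ℝ ∞ u UU) (s : ℂ) : ContDiffOn ℝ 1 (be u s) HH := fun z hz =>
  (be_hasFDerivAt hu hz s 0).1.contDiffWithinAt

/-- the equivariance -/
theorem be_equi (hu : ContDiffOn ℝ ∞ u UU)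
    (hinv : ∀ γ ∈ CG, ∀ p ∈ UU, jj γ p.2 ≠ 0 → u (FF γ p) = u p) (s : ℂ) (hs : s = 0 ∨ s = 1)
    (g : SL(2, ℝ)) (hg : g ∈ CG) (z : ℂ) (hz : 0 < z.im) :
    be u s (nn g z / jj g z) = conj (jj g z) ^ 2 * be u s z := by
  have hj : jj g z ≠ 0 := jj_ne g hz
  have hmob : nn g z / jj g z = mob g z := rfl
  have hmz : mob g z ∈ HH := mob_mem g hz
  -- the chain rule
  have hmem : ((z, z) : E) ∈ UU := hz
  have hmem' : ((mob g z, mob g z) : E) ∈ UU := hmz
  have hu' : DifferentiableAt ℝ u (mob g z, mob g z) :=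
    ((hu.contDiffAt (isOpen_UU'.mem_nhds hmem')).differentiableAt (by simp))
  have hm := (hasDerivAt_mob g hz).hasFDerivAt.restrictScalars ℝ
  have hFF : HasFDerivAt (FF g) (((ContinuousLinearMap.toSpanSingleton ℂ
      (1 / jj g z ^ 2)).restrictScalars ℝ).prodMap ((ContinuousLinearMap.toSpanSingleton ℂ
      (1 / jj g z ^ 2)).restrictScalars ℝ)) ((z, z) : E) := by
    have h1 : FF g = Prod.map (mob g) (mob g) := rfl
    rw [h1]
    exact hm.prodMap (z, z) hm
  have hFz : FF g (z, z) = (mob g z, mob g z) := rfl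
  have hcomp : HasFDerivAt (fun p => u (FF g p)) _ ((z, z) : E) :=
    HasFDerivAt.comp ((z, z) : E) (g := u) (f := FF g) (by rw [hFz]; exact hu'.hasFDerivAt) hFF
  have hev : (fun p => u (FF g p)) =ᶠ[𝓝 ((z, z) : E)] u := by
    have h1 : ∀ᶠ p : E in 𝓝 ((z, z) : E), jj g p.2 ≠ 0 := by
      have hc : Continuous fun p : E => jj g p.2 := by
        unfold jj
        fun_prop
      exact hc.continuousAt.eventually_ne hj
    filter_upwards [h1, isOpen_UU'.mem_nhds hmem] with p hp hpU
    exact hinv g hg p hpU hp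
  have hD : fderiv ℝ u (z, z) = (fderiv ℝ u (mob g z, mob g z)).comp
      (((ContinuousLinearMap.toSpanSingleton ℂ
      (1 / jj g z ^ 2)).restrictScalars ℝ).prodMap ((ContinuousLinearMap.toSpanSingleton ℂ
      (1 / jj g z ^ 2)).restrictScalars ℝ)) := by
    rw [← hev.fderiv_eq]
    exact hcomp.fderiv
  -- values
  have key : ∀ k : ℂ, fderiv ℝ u (mob g z, mob g z) (s * k, k) =
      fderiv ℝ u (z, z) (s * (jj g z ^ 2 * k), jj g z ^ 2 * k) := by
    intro k
    rw [hD]
    change _ = fderiv ℝ u (mob g z, mob g z) ((s * (jj g z ^ 2 * k)) • (1 / jj g z ^ 2),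
      (jj g z ^ 2 * k) • (1 / jj g z ^ 2))
    have q1 : (s * (jj g z ^ 2 * k)) • (1 / jj g z ^ 2) = s * k := by
      rw [smul_eq_mul]
      field_simp
    have q2 : (jj g z ^ 2 * k) • (1 / jj g z ^ 2) = k := by
      rw [smul_eq_mul]
      field_simp
    rw [q1, q2]
  -- real linear functional
  have hlin : ∀ k : ℂ, fderiv ℝ u (z, z) (s * k, k) =
      k.re * fderiv ℝ u (z, z) (s, 1) + k.im * fderiv ℝ u (z, z) (s * Complex.I, Complex.I) := by
    intro k
    have e1 : ((s * k, k) : E) = k.re • ((s, 1) : E) + k.im • ((s * Complex.I, Complex.I) : E) := by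
      rw [Prod.smul_mk, Prod.smul_mk, Prod.mk_add_mk]
      congr 1
      · rw [Complex.real_smul, Complex.real_smul]
        conv_lhs => rw [← Complex.re_add_im k]
        ring
      · rw [Complex.real_smul, Complex.real_smul, mul_one]
        exact (Complex.re_add_im k).symm
    rw [e1, map_add, map_smul, map_smul, smul_eq_mul, smul_eq_mul]
  rw [hmob]
  have k1 := key 1
  have k2 := key Complex.I
  rw [mul_one] at k1
  rw [hlin, mul_one] at k1
  rw [hlin] at k2
  unfold be
  rw [k1, k2]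
  set A := fderiv ℝ u (z, z) (s, 1)
  set B := fderiv ℝ u (z, z) (s * Complex.I, Complex.I)
  set q := jj g z
  apply Complex.ext
  · simp [pow_two]
    ring
  · simp [pow_two]
    ring

/-- the Levi form along the diagonal -/
theorem levi_diag (hu : ContDiffOn ℝ ∞ u UU)
    (hpos : ∀ p ∈ UU, ∀ v : E, 0 ≤ levF 1 2 p v + laplaceAtZero (fun ζ => u (p + ζ • v)))
    {z : ℂ} (hz : z ∈ HH) (v : E) :
    0 ≤ (Complex.normSq v.2 + 3 * Complex.normSq v.1 - 4 * (v.2 * conj v.1).re) / z.im ^ 2 +
      (BB u z v v + BB u z (Complex.I • v) (Complex.I • v)) := by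
  have hmem : ((z, z) : E) ∈ UU := hz
  have hy : 0 < z.im := hz
  have h1 := hpos (z, z) hmem v
  have hline : AnalyticAt ℂ (fun ζ : ℂ => ((z, z) : E) + ζ • v) 0 := by fun_prop
  have h0 : (fun ζ : ℂ => ((z, z) : E) + ζ • v) 0 = (z, z) := by simp
  have huat : ContDiffAt ℝ 2 u ((fun ζ : ℂ => ((z, z) : E) + ζ • v) 0) := by
    rw [h0]
    exact (hu.contDiffAt (isOpen_UU'.mem_nhds hmem)).of_le two_le_inf
  have hlc : ContDiffAt ℝ 2 (fun ζ : ℂ => u (((z, z) : E) + ζ • v)) 0 := by
    have hl : ContDiffAt ℝ 2 (fun ζ : ℂ => ((z, z) : E) + ζ • v) 0 :=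
      (hline.contDiffAt (n := 2)).restrict_scalars ℝ
    exact huat.comp 0 hl
  have hder : deriv (fun ζ : ℂ => ((z, z) : E) + ζ • v) 0 = v := by
    have : HasDerivAt (fun ζ : ℂ => ((z, z) : E) + ζ • v) ((1 : ℂ) • v) 0 :=
      ((hasDerivAt_id (0 : ℂ)).smul_const v).const_add _
    rw [this.deriv, one_smul]
  have h2 : laplaceAtZero (fun ζ => u ((z, z) + ζ • v)) =
      BB u z v v + BB u z (Complex.I • v) (Complex.I • v) := by
    rw [laplaceAtZero_eq hlc, laplacian_comp_hol hline huat, hder]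
    simp only [zero_smul, add_zero]
    rfl
  have h3 : levF 1 2 (z, z) v =
      (Complex.normSq v.2 + 3 * Complex.normSq v.1 - 4 * (v.2 * conj v.1).re) / z.im ^ 2 := by
    have hQ : QQ ((z, z) : E) = 4 * z.im ^ 2 := by
      unfold QQ
      rw [Complex.normSq_apply]
      simp
      ring
    have hP : PP ((z, z) : E) = 0 := by
      unfold PP
      simp
    have hc : ((conj z - z) ^ 2 * v.2 * conj v.1).re = -(4 * z.im ^ 2) * (v.2 * conj v.1).re := by
      have e1 : conj z - z = -(2 * z.im : ℝ) * Complex.I := by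
        apply Complex.ext <;> simp
        ring
      have e2 : (conj z - z) ^ 2 * v.2 * conj v.1 =
          ((-(4 * z.im ^ 2) : ℝ) : ℂ) * (v.2 * conj v.1) := by
        rw [e1]
        push_cast
        linear_combination (4 * (z.im : ℂ) ^ 2 * (v.2 * conj v.1)) * Complex.I_sq
      rw [e2, Complex.re_ofReal_mul]
    unfold levF
    simp only [hQ, hP]
    rw [hc]
    field_simp
    ring
  rw [h2, h3] at h1
  exact h1

/-- the mixed derivatives -/
theorem mixed (hu : ContDiffOn ℝ ∞ u UU)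
    (hpos : ∀ p ∈ UU, ∀ v : E, 0 ≤ levF 1 2 p v + laplaceAtZero (fun ζ => u (p + ζ • v)))
    {z : ℂ} (hz : z ∈ HH)
    (h0 : BB u z (1, 1) (1, 1) + BB u z (Complex.I, Complex.I) (Complex.I, Complex.I) = 0) (b : ℂ) :
    BB u z (1, 1) (0, b) + BB u z (Complex.I, Complex.I) (0, Complex.I * b) = b.re / z.im ^ 2 := by
  have hy : 0 < z.im := hz
  have hmem : ((z, z) : E) ∈ UU := hz
  have huat : ContDiffAt ℝ 2 u (z, z) :=
    (hu.contDiffAt (isOpen_UU'.mem_nhds hmem)).of_le two_le_inf
  have hsym : ∀ v w : E, BB u z v w = BB u z w v := fun v w => J5_sym huat v w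
  set S := BB u z (1, 1) (0, b) + BB u z (Complex.I, Complex.I) (0, Complex.I * b) with hS
  set T := BB u z (0, b) (0, b) + BB u z (0, Complex.I * b) (0, Complex.I * b) with hT
  have hq : ∀ t : ℝ, 0 ≤ 2 * t * (S - b.re / z.im ^ 2) +
      t ^ 2 * (T + Complex.normSq b / z.im ^ 2) := by
    intro t
    have h1 := levi_diag hu hpos hz ((1, 1) + t • ((0, b) : E))
    have e1 : BB u z ((1, 1) + t • ((0, b) : E)) ((1, 1) + t • ((0, b) : E)) =
        BB u z (1, 1) (1, 1) + 2 * t * BB u z (1, 1) (0, b) + t ^ 2 * BB u z (0, b) (0, b) := by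
      have hs := hsym (1, 1) (0, b)
      unfold BB at hs ⊢
      simp only [map_add, map_smul, _root_.add_apply, _root_.smul_apply,
        smul_eq_mul]
      rw [hs]
      ring
    have e2 : Complex.I • ((1, 1) + t • ((0, b) : E)) =
        ((Complex.I, Complex.I) : E) + t • ((0, Complex.I * b) : E) := by
      rw [smul_add, smul_comm Complex.I t]
      simp
    have e3 : BB u z (((Complex.I, Complex.I) : E) + t • ((0, Complex.I * b) : E))
        (((Complex.I, Complex.I) : E) + t • ((0, Complex.I * b) : E)) =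
        BB u z (Complex.I, Complex.I) (Complex.I, Complex.I) +
          2 * t * BB u z (Complex.I, Complex.I) (0, Complex.I * b) +
          t ^ 2 * BB u z (0, Complex.I * b) (0, Complex.I * b) := by
      have hs := hsym (Complex.I, Complex.I) (0, Complex.I * b)
      unfold BB at hs ⊢
      simp only [map_add, map_smul, _root_.add_apply, _root_.smul_apply,
        smul_eq_mul]
      rw [hs]
      ring
    rw [e2, e1, e3] at h1
    have e4 : Complex.normSq (((1, 1) + t • ((0, b) : E)) : E).2 +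
        3 * Complex.normSq (((1, 1) + t • ((0, b) : E)) : E).1 -
        4 * ((((1, 1) + t • ((0, b) : E)) : E).2 * conj (((1, 1) + t • ((0, b) : E)) : E).1).re =
        -(2 * t * b.re) + t ^ 2 * Complex.normSq b := by
      simp only [Prod.snd_add, Prod.fst_add, Prod.smul_snd, Prod.smul_fst, smul_zero, add_zero]
      rw [Complex.normSq_apply, Complex.normSq_apply, Complex.normSq_apply]
      simp
      ring
    rw [e4] at h1
    have e5 : (-(2 * t * b.re) + t ^ 2 * Complex.normSq b) / z.im ^ 2 =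
        -(2 * t * (b.re / z.im ^ 2)) + t ^ 2 * (Complex.normSq b / z.im ^ 2) := by
      field_simp
    rw [e5] at h1
    rw [hS, hT]
    linarith
  set D := S - b.re / z.im ^ 2 with hD
  set R := T + Complex.normSq b / z.im ^ 2 with hR
  -- a quadratic which is nonnegative near zero
  have hD0 : D = 0 := by
    by_contra hne
    have h2 := hq (-(D / (|R| + 1)))
    have hRp : 0 < |R| + 1 := by positivity
    have hDp : 0 < D ^ 2 := by positivity
    have e6 : 2 * -(D / (|R| + 1)) * D + (-(D / (|R| + 1))) ^ 2 * R =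
        D ^ 2 / (|R| + 1) ^ 2 * (R - 2 * (|R| + 1)) := by
      field_simp
      ring
    rw [e6] at h2
    have h3 : R - 2 * (|R| + 1) < 0 := by
      have := le_abs_self R
      have := abs_nonneg R
      linarith
    have h4 : 0 < D ^ 2 / (|R| + 1) ^ 2 := by positivity
    nlinarith
  linarith

end diag

/-- NOT: there is no semipositive representative. -/
theorem t_NOT : S_NOT := by
  intro u hu hinv hpos
  obtain ⟨φ, hφ⟩ := exists_cutoff
  -- the diagonal
  have e1 := int_zero hφ (be_contDiffOn hu 1) (fun g hg z hz =>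
    be_equi hu hinv 1 (Or.inr rfl) g hg z hz)
  have e0 := int_zero hφ (be_contDiffOn hu 0) (fun g hg z hz =>
    be_equi hu hinv 0 (Or.inl rfl) g hg z hz)
  set h1 : ℂ → ℝ := fun z => BB u z (1, 1) (1, 1) +
    BB u z (Complex.I, Complex.I) (Complex.I, Complex.I) with hh1
  have hBc : ∀ v w : E, ContinuousOn (fun z : ℂ => BB u z v w) HH := by
    intro v w
    have a1 : ContDiffOn ℝ 1 (fderiv ℝ u) UU :=
      (hu.of_le (m := 2) two_le_inf).fderiv_of_isOpen isOpen_UU' (by norm_num)
    have a2 : ContinuousOn (fderiv ℝ (fderiv ℝ u)) UU :=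
      a1.continuousOn_fderiv_of_isOpen isOpen_UU' (by norm_num)
    have a3 : ContinuousOn (fun z : ℂ => fderiv ℝ (fderiv ℝ u) ((z, z) : E)) HH :=
      a2.comp (by fun_prop) (fun z hz => hz)
    exact (a3.clm_apply continuousOn_const).clm_apply continuousOn_const
  have hd1 : ∀ z ∈ HH, d1 (be u 1) z = ((1 / 2 * h1 z : ℝ) : ℂ) := by
    intro z hz
    have hmem : ((z, z) : E) ∈ UU := hz
    have huat : ContDiffAt ℝ 2 u (z, z) :=
      (hu.contDiffAt (isOpen_UU'.mem_nhds hmem)).of_le two_le_inf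
    have hsym : BB u z (1, 1) (Complex.I, Complex.I) = BB u z (Complex.I, Complex.I) (1, 1) :=
      J5_sym huat _ _
    rw [be_d1 hu hz 1, one_mul, hsym, sub_self]
    simp [hh1]
  have hh1pos : ∀ z ∈ HH, 0 ≤ h1 z := by
    intro z hz
    have := levi_diag hu hpos hz (1, 1)
    have e : Complex.I • ((1, 1) : E) = (Complex.I, Complex.I) := by simp
    rw [e] at this
    have e2 : Complex.normSq ((1, 1) : E).2 + 3 * Complex.normSq ((1, 1) : E).1 -
        4 * (((1, 1) : E).2 * conj ((1, 1) : E).1).re = 0 := by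
      simp
      norm_num
    rw [e2, zero_div, zero_add] at this
    exact this
  have hzero : ∀ z ∈ HH, φ z * h1 z = 0 := by
    intro z hz
    refine int_pos hφ (h := h1) ((hBc _ _).add (hBc _ _)) hh1pos ?_ z hz
    have a1 : ∫ z in HH, (φ z : ℂ) * d1 (be u 1) z =
        ((1 / 2 * ∫ z in HH, φ z * h1 z : ℝ) : ℂ) := by
      rw [← integral_const_mul, ← integral_complex_ofReal]
      refine setIntegral_congr_fun isOpen_HH.measurableSet fun z hz => ?_
      show (φ z : ℂ) * d1 (be u 1) z = ((1 / 2 * (φ z * h1 z) : ℝ) : ℂ)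
      rw [hd1 z hz]
      push_cast
      ring
    rw [a1] at e1
    have a2 : 1 / 2 * ∫ z in HH, φ z * h1 z = 0 := by exact_mod_cast e1
    linarith
  -- the weight two form
  have hd0 : ∀ z ∈ HH, (φ z : ℂ) * d1 (be u 0) z = ((φ z * (1 / (2 * z.im ^ 2)) : ℝ) : ℂ) := by
    intro z hz
    by_cases hφz : φ z = 0
    · rw [hφz]; simp
    · have hz1 : h1 z = 0 := (mul_eq_zero.1 (hzero z hz)).resolve_left hφz
      have m1 := mixed hu hpos hz hz1 1
      have m2 := mixed hu hpos hz hz1 Complex.I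
      rw [mul_one] at m1
      rw [Complex.I_mul_I] at m2
      have m3 : BB u z (Complex.I, Complex.I) (0, -1) = -BB u z (Complex.I, Complex.I) (0, 1) := by
        have : ((0, -1) : E) = -((0, 1) : E) := by simp
        rw [this]
        unfold BB
        rw [map_neg]
      rw [m3] at m2
      rw [be_d1 hu hz 0, zero_mul]
      have m4 : BB u z (1, 1) (0, Complex.I) - BB u z (Complex.I, Complex.I) (0, 1) = 0 := by
        rw [sub_eq_add_neg, m2]
        simp
      rw [m1, m4]
      have hy : z.im ≠ 0 := ne_of_gt hz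
      rw [Complex.one_re]
      push_cast
      field_simp
      ring
  have hcont : ContinuousOn (fun z : ℂ => 1 / (2 * z.im ^ 2)) HH := by
    refine continuousOn_const.div (by fun_prop) fun z hz => ?_
    have : 0 < z.im := hz
    positivity
  have hint : ∫ z in HH, φ z * (1 / (2 * z.im ^ 2)) = 0 := by
    have a1 : ∫ z in HH, (φ z : ℂ) * d1 (be u 0) z =
        ((∫ z in HH, φ z * (1 / (2 * z.im ^ 2)) : ℝ) : ℂ) := by
      rw [← integral_complex_ofReal]
      exact setIntegral_congr_fun isOpen_HH.measurableSet fun z hz => hd0 z hz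
    rw [a1] at e0
    exact_mod_cast e0
  obtain ⟨z, hz, hφz⟩ := exists_pos' hφ
  have := int_pos hφ hcont (fun z hz => by
    have : 0 < z.im := hz
    positivity) hint z hz
  have hy : 0 < z.im := hz
  have h9 : 0 < φ z * (1 / (2 * z.im ^ 2)) := by positivity
  linarith

end Pool.Agent.Run7.h524.KS
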